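import Pool.Agent.H37.CTT.Stmts

set_option autoImplicit false

namespace Pool.CND

open Finset Polynomial Matrix

theorem sg1_frm {F : Type} [Field F] (u v : Fin 4 → F) :
    frm u v = u 0 * v 3 + u 1 * v 2 - u 2 * v 1 - u 3 * v 0 := by
  simp [frm, J4s, Matrix.mulVec, dotProduct, Fin.sum_univ_four]
  ring

theorem sg1_inv {F : Type} [Field F] (g : Matrix.SpecialLinearGroup (Fin 4) F) (hg : g ∈ Sp4 F)
    (x y : Fin 4 → F) : frm (g.1 *ᵥ x) (g.1 *ᵥ y) = frm x y := by
  have hg' : g.1ᵀ * J4s F * g.1 = J4s F := hg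
  unfold frm
  rw [← Matrix.vecMul_transpose g.1 x, ← Matrix.dotProduct_mulVec, Matrix.mulVec_mulVec,
    Matrix.mulVec_mulVec, hg']

theorem sg1_tv {F : Type} [Field F] (v : Fin 4 → F) (c : F) :
    ∃ g : Matrix.SpecialLinearGroup (Fin 4) F, ∀ x, g.1 *ᵥ x = x + (c * frm x v) • v := by
  have hd : (1 + replicateCol Unit (c • v) * replicateRow Unit (fun i => (J4s F *ᵥ v) i)).det
      = 1 := by
    rw [Matrix.det_one_add_replicateCol_mul_replicateRow]
    have h : (fun i => (J4s F *ᵥ v) i) ⬝ᵥ (c • v) = c * frm v v := by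
      unfold frm
      rw [dotProduct_smul, dotProduct_comm, smul_eq_mul]
    rw [h, sg1_frm]
    ring
  refine ⟨⟨_, hd⟩, fun x => ?_⟩
  show (1 + replicateCol Unit (c • v) * replicateRow Unit (fun i => (J4s F *ᵥ v) i)) *ᵥ x = _
  rw [Matrix.add_mulVec, Matrix.one_mulVec, ← Matrix.mulVec_mulVec]
  congr 1
  ext i
  simp [Matrix.mulVec, dotProduct, frm]
  rw [mul_right_comm]
  congr 1
  congr 1
  exact Finset.sum_congr rfl (fun j _ => mul_comm _ _)

section

variable {F : Type} [Field F] (G₀ : Subgroup (Matrix.SpecialLinearGroup (Fin 4) F))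
  (hT : ∀ (g : Matrix.SpecialLinearGroup (Fin 4) F) (v : Fin 4 → F) (c : F),
    (∀ x, g.1.mulVec x = x + (c * frm x v) • v) → g ∈ G₀)

include hT

theorem sg1_A (u w : Fin 4 → F) (h : frm u w ≠ 0) :
    ∃ g ∈ G₀, g.1 *ᵥ u = w ∧ ∀ y, frm y u = frm y w → g.1 *ᵥ y = y := by
  obtain ⟨g, hg⟩ := sg1_tv (w - u) (frm u w)⁻¹
  refine ⟨g, hT g _ _ hg, ?_, ?_⟩
  · rw [hg]
    have h1 : frm u (w - u) = frm u w := by
      simp only [sg1_frm, Pi.sub_apply]
      ring
    rw [h1, inv_mul_cancel₀ h, one_smul]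
    abel
  · intro y hy
    rw [hg]
    have h1 : frm y (w - u) = frm y w - frm y u := by
      simp only [sg1_frm, Pi.sub_apply]
      ring
    rw [h1, hy, sub_self, mul_zero, zero_smul, add_zero]

theorem sg1_B (u z w : Fin 4 → F) (h : frm u z ≠ 0) (h' : frm z w ≠ 0) :
    ∃ g ∈ G₀, g.1 *ᵥ u = w ∧ ∀ y, frm y u = frm y z → frm y z = frm y w → g.1 *ᵥ y = y := by
  obtain ⟨a, ha, ha1, ha2⟩ := sg1_A G₀ hT u z h
  obtain ⟨b, hb, hb1, hb2⟩ := sg1_A G₀ hT z w h'
  refine ⟨b * a, G₀.mul_mem hb ha, ?_, ?_⟩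
  · show (b.1 * a.1) *ᵥ u = w
    rw [← Matrix.mulVec_mulVec, ha1, hb1]
  · intro y h1 h2
    show (b.1 * a.1) *ᵥ y = y
    rw [← Matrix.mulVec_mulVec, ha2 y h1, hb2 y h2]

end

theorem sg1_nd {F : Type} [Field F] (x : Fin 4 → F) (hx : ∀ i, frm x (Pi.single i 1) = 0) :
    x = 0 := by
  have h0 := hx 0
  have h1 := hx 1
  have h2 := hx 2
  have h3 := hx 3
  simp [sg1_frm] at h0 h1 h2 h3
  ext i
  fin_cases i
  · exact h3
  · exact h2
  · exact h1
  · exact h0

theorem sg1_z {F : Type} [Field F] (u w : Fin 4 → F) (hu : u ≠ 0) (hw : w ≠ 0) :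
    ∃ z, frm u z ≠ 0 ∧ frm z w ≠ 0 := by
  have h1 : ∃ z, frm u z ≠ 0 := by
    by_contra h
    push Not at h
    exact hu (sg1_nd u fun i => h _)
  have h2 : ∃ z, frm z w ≠ 0 := by
    by_contra h
    push Not at h
    apply hw
    apply sg1_nd
    intro i
    have := h (Pi.single i 1)
    simp only [sg1_frm] at this ⊢
    linear_combination - this
  obtain ⟨a, ha⟩ := h1
  obtain ⟨b, hb⟩ := h2
  by_cases h3 : frm a w = 0
  · by_cases h4 : frm u b = 0
    · refine ⟨a + b, ?_, ?_⟩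
      · have : frm u (a + b) = frm u a + frm u b := by
          simp only [sg1_frm, Pi.add_apply]
          ring
        rw [this, h4, add_zero]
        exact ha
      · have : frm (a + b) w = frm a w + frm b w := by
          simp only [sg1_frm, Pi.add_apply]
          ring
        rw [this, h3, zero_add]
        exact hb
    · exact ⟨b, h4, hb⟩
  · exact ⟨a, ha, h3⟩

theorem sg1_mv {F : Type} [Field F] (a b : Matrix.SpecialLinearGroup (Fin 4) F)
    (x : Fin 4 → F) : (a * b).1 *ᵥ x = a.1 *ᵥ (b.1 *ᵥ x) := by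
  show (a.1 * b.1) *ᵥ x = _
  rw [← Matrix.mulVec_mulVec]

theorem sg1_thm : S_SG1 := by
  intro F _ G₀ hle hT
  refine le_antisymm hle fun g hg => ?_
  set e : Fin 4 → Fin 4 → F := fun i => Pi.single i 1 with he
  have s1 : ∃ h ∈ G₀, (h * g).1 *ᵥ e 3 = e 3 := by
    have hne : g.1 *ᵥ e 3 ≠ 0 := by
      intro h0
      have h1 := sg1_inv g hg (e 0) (e 3)
      rw [h0] at h1
      simp [sg1_frm, he] at h1
    have hne' : e 3 ≠ 0 := by
      intro h0
      have := congrFun h0 3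
      simp [he] at this
    obtain ⟨z, hz1, hz2⟩ := sg1_z _ _ hne hne'
    obtain ⟨h, hh, h1, _⟩ := sg1_B G₀ hT _ z _ hz1 hz2
    exact ⟨h, hh, by rw [sg1_mv, h1]⟩
  obtain ⟨a, ha, ha3⟩ := s1
  have hg1 : a * g ∈ Sp4 F := (Sp4 F).mul_mem (hle ha) hg
  have s2 : ∃ h ∈ G₀, (h * (a * g)).1 *ᵥ e 3 = e 3 ∧ (h * (a * g)).1 *ᵥ e 0 = e 0 := by
    have hB : frm ((a * g).1 *ᵥ e 0) (e 3) = 1 := by
      have h1 := sg1_inv _ hg1 (e 0) (e 3)
      rw [ha3] at h1
      rw [h1]
      simp [sg1_frm, he]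
    by_cases h0 : frm ((a * g).1 *ᵥ e 0) (e 0) = 0
    · obtain ⟨h, hh, h1, h2⟩ := sg1_B G₀ hT ((a * g).1 *ᵥ e 0) ((a * g).1 *ᵥ e 0 + e 3) (e 0)
        (by
          have : frm ((a * g).1 *ᵥ e 0) ((a * g).1 *ᵥ e 0 + e 3) =
              frm ((a * g).1 *ᵥ e 0) (e 3) := by
            simp only [sg1_frm, Pi.add_apply]
            ring
          rw [this, hB]
          exact one_ne_zero)
        (by
          have : frm ((a * g).1 *ᵥ e 0 + e 3) (e 0) =
              frm ((a * g).1 *ᵥ e 0) (e 0) + frm (e 3) (e 0) := by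
            simp only [sg1_frm, Pi.add_apply]
            ring
          rw [this, h0]
          simp [sg1_frm, he])
      refine ⟨h, hh, ?_, ?_⟩
      · rw [sg1_mv, ha3]
        apply h2
        · simp only [sg1_frm, Pi.add_apply]
          ring
        · have h3 : frm (e 3) ((a * g).1 *ᵥ e 0 + e 3) = - frm ((a * g).1 *ᵥ e 0) (e 3) := by
            simp only [sg1_frm, Pi.add_apply]
            ring
          rw [h3, hB]
          simp [sg1_frm, he]
      · rw [sg1_mv, h1]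
    · obtain ⟨h, hh, h1, h2⟩ := sg1_A G₀ hT ((a * g).1 *ᵥ e 0) (e 0) h0
      refine ⟨h, hh, ?_, ?_⟩
      · rw [sg1_mv, ha3]
        apply h2
        have h3 : frm (e 3) ((a * g).1 *ᵥ e 0) = - frm ((a * g).1 *ᵥ e 0) (e 3) := by
          simp only [sg1_frm]
          ring
        rw [h3, hB]
        simp [sg1_frm, he]
      · rw [sg1_mv, h1]
  obtain ⟨b, hb, hb3, hb0⟩ := s2
  set g2 := b * (a * g) with hg2
  have hg2S : g2 ∈ Sp4 F := (Sp4 F).mul_mem (hle hb) hg1
  have s3 : ∃ h ∈ G₀, (h * g2).1 *ᵥ e 3 = e 3 ∧ (h * g2).1 *ᵥ e 0 = e 0 ∧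
      (h * g2).1 *ᵥ e 2 = e 2 := by
    have k0 : frm (e 0) (g2.1 *ᵥ e 2) = 0 := by
      have h1 := sg1_inv _ hg2S (e 0) (e 2)
      rw [hb0] at h1
      rw [h1]
      simp [sg1_frm, he]
    have k3 : frm (e 3) (g2.1 *ᵥ e 2) = 0 := by
      have h1 := sg1_inv _ hg2S (e 3) (e 2)
      rw [hb3] at h1
      rw [h1]
      simp [sg1_frm, he]
    by_cases h0 : frm (g2.1 *ᵥ e 2) (e 2) = 0
    · have hne : g2.1 *ᵥ e 2 ≠ 0 := by
        intro h0
        have h1 := sg1_inv g2 hg2S (e 1) (e 2)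
        rw [h0] at h1
        simp [sg1_frm, he] at h1
      have h1 : frm (g2.1 *ᵥ e 2) (e 1) ≠ 0 := by
        intro h1
        apply hne
        apply sg1_nd
        intro i
        fin_cases i
        · have : frm (g2.1 *ᵥ e 2) (e 0) = 0 := by
            have h3 : frm (g2.1 *ᵥ e 2) (e 0) = - frm (e 0) (g2.1 *ᵥ e 2) := by
              simp only [sg1_frm]
              ring
            rw [h3, k0, neg_zero]
          exact this
        · exact h1
        · exact h0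
        · have : frm (g2.1 *ᵥ e 2) (e 3) = 0 := by
            have h3 : frm (g2.1 *ᵥ e 2) (e 3) = - frm (e 3) (g2.1 *ᵥ e 2) := by
              simp only [sg1_frm]
              ring
            rw [h3, k3, neg_zero]
          exact this
      obtain ⟨h, hh, h2, h3⟩ := sg1_B G₀ hT (g2.1 *ᵥ e 2) (e 1) (e 2) h1
        (by simp [sg1_frm, he])
      refine ⟨h, hh, ?_, ?_, ?_⟩
      · rw [sg1_mv, hb3]
        apply h3
        · rw [k3]
          simp [sg1_frm, he]
        · simp [sg1_frm, he]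
      · rw [sg1_mv, hb0]
        apply h3
        · rw [k0]
          simp [sg1_frm, he]
        · simp [sg1_frm, he]
      · rw [sg1_mv, h2]
    · obtain ⟨h, hh, h1, h2⟩ := sg1_A G₀ hT (g2.1 *ᵥ e 2) (e 2) h0
      refine ⟨h, hh, ?_, ?_, ?_⟩
      · rw [sg1_mv, hb3]
        apply h2
        rw [k3]
        simp [sg1_frm, he]
      · rw [sg1_mv, hb0]
        apply h2
        rw [k0]
        simp [sg1_frm, he]
      · rw [sg1_mv, h1]
  obtain ⟨d, hd, hd3, hd0, hd2⟩ := s3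
  set g3 := d * g2 with hg3
  have hg3S : g3 ∈ Sp4 F := (Sp4 F).mul_mem (hle hd) hg2S
  have k0 : frm (g3.1 *ᵥ e 1) (e 0) = 0 := by
    have h1 := sg1_inv _ hg3S (e 1) (e 0)
    rw [hd0] at h1
    rw [h1]
    simp [sg1_frm, he]
  have k3 : frm (g3.1 *ᵥ e 1) (e 3) = 0 := by
    have h1 := sg1_inv _ hg3S (e 1) (e 3)
    rw [hd3] at h1
    rw [h1]
    simp [sg1_frm, he]
  have k2 : frm (g3.1 *ᵥ e 1) (e 2) = 1 := by
    have h1 := sg1_inv _ hg3S (e 1) (e 2)
    rw [hd2] at h1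
    rw [h1]
    simp [sg1_frm, he]
  have hg3m : g3 ∈ G₀ := by
    apply hT g3 (e 2) (g3.1 2 1)
    intro x
    have c : ∀ i j, g3.1 i j = (g3.1 *ᵥ e j) i := by
      intro i j
      simp [he]
    have k0' : g3.1 3 1 = 0 := by
      rw [c]
      simpa [sg1_frm, he] using k0
    have k3' : g3.1 0 1 = 0 := by
      rw [c]
      simpa [sg1_frm, he] using k3
    have k2' : g3.1 1 1 = 1 := by
      rw [c]
      simpa [sg1_frm, he] using k2
    have m0 : ∀ i, g3.1 i 0 = e 0 i := by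
      intro i
      rw [c, hd0]
    have m2 : ∀ i, g3.1 i 2 = e 2 i := by
      intro i
      rw [c, hd2]
    have m3 : ∀ i, g3.1 i 3 = e 3 i := by
      intro i
      rw [c, hd3]
    ext i
    simp only [Matrix.mulVec, dotProduct, Fin.sum_univ_four, m0, m2, m3, Pi.add_apply,
      Pi.smul_apply, smul_eq_mul, sg1_frm]
    fin_cases i
    · simp [he, k3']
    · simp [he, k2']
    · simp [he]
      ring
    · simp [he, k0']
  have h1 : g = (d * (b * a))⁻¹ * g3 := by
    rw [hg3, hg2]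
    group
  rw [h1]
  exact G₀.mul_mem (G₀.inv_mem (G₀.mul_mem hd (G₀.mul_mem hb ha))) hg3m

end Pool.CND
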